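import Pool.Agent.Lib.MP_56ed1a_nt.Main

namespace Pool.Agent.Results.MP_56ed1a_nt.OddDepthThree

open Pool.Agent.Lib.MP_56ed1a_nt

/-- In depth three the totally odd values span the whole depth-graded piece modulo `ζ(2)`. -/
theorem result (N : ℕ) : oddPart N 3 = (⊤ : Submodule ℚ (Graded N 3)) := oddPart_eq_top N

end Pool.Agent.Results.MP_56ed1a_nt.OddDepthThree
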